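import Mathlib

/-!
# Extending embeddings of number fields to endomorphisms of `ℂ`; multiquadratic fields
-/

set_option maxSynthPendingDepth 3

namespace Pool.Agent.GHC

open MvPolynomial

/-- A copy of `ℂ`. -/
def CC : Type := ℂ

noncomputable instance : Field CC := inferInstanceAs (Field ℂ)

instance : IsAlgClosed CC := inferInstanceAs (IsAlgClosed ℂ)

instance : CharZero CC := inferInstanceAs (CharZero ℂ)

theorem exists_extension {K : Type} [Field K] [CharZero K] [Algebra K ℂ]
    [Algebra.IsAlgebraic ℚ K] (f : K →+* ℂ) :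
    ∃ σ : ℂ →+* ℂ, ∀ x : K, σ (algebraMap K ℂ x) = f x := by
  obtain ⟨T, x, hx⟩ := exists_isTranscendenceBasis' K ℂ
  let f' : K →+* CC := f
  let : Algebra K CC := f'.toAlgebra
  have h1 : AlgebraicIndependent ℚ x :=
    hx.1.restrictScalars (algebraMap ℚ K).injective
  let x' : T → CC := x
  have h2 : AlgebraicIndependent ℚ x' := by
    have key : ∀ p : MvPolynomial T ℚ, MvPolynomial.aeval x' p = (MvPolynomial.aeval x p : ℂ) := by
      intro p
      induction p using MvPolynomial.induction_on with
      | C a =>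
        rw [MvPolynomial.aeval_C, MvPolynomial.aeval_C]
        simp only [eq_ratCast]
        rfl
      | add p q hp hq =>
        rw [_root_.map_add, _root_.map_add, hp, hq]
        rfl
      | mul_X p i hp =>
        rw [map_mul, map_mul, hp, MvPolynomial.aeval_X, MvPolynomial.aeval_X]
        rfl
    intro p q hpq
    apply h1
    rw [← key, ← key]
    exact hpq
  have : IsScalarTower ℚ K CC := IsScalarTower.of_algebraMap_eq' (Subsingleton.elim _ _)
  have h3 : AlgebraicIndependent K x' := h2.extendScalars K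
  let S := Algebra.adjoin K (Set.range x)
  let φ : S →+* CC := (MvPolynomial.aeval (R := K) x').toRingHom.comp
    (hx.1.aevalEquiv.symm : S →+* MvPolynomial T K)
  have hφ : Function.Injective φ := by
    intro a b hab
    exact hx.1.aevalEquiv.symm.injective (h3 hab)
  let : Algebra S CC := φ.toAlgebra
  have f2 : FaithfulSMul S CC := (faithfulSMul_iff_algebraMap_injective _ _).mpr hφ
  have halg : Algebra.IsAlgebraic S ℂ := hx.isAlgebraic
  let g : ℂ →ₐ[S] CC := IsAlgClosed.lift
  refine ⟨g.toRingHom, fun a => ?_⟩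
  have h5 := g.commutes (algebraMap K S a)
  have h6 : algebraMap S CC (algebraMap K S a) = f' a := by
    change MvPolynomial.aeval (R := K) x' (hx.1.aevalEquiv.symm (algebraMap K S a)) = f' a
    rw [AlgEquiv.commutes, MvPolynomial.algebraMap_eq, MvPolynomial.aeval_C]
    rfl
  rw [h6] at h5
  exact h5

/-- An endomorphism of `ℂ` fixing a number field `F` and negating a square root. -/
theorem exists_neg_sqrt (F : IntermediateField ℚ ℂ) [Algebra.IsAlgebraic ℚ F] {s : ℂ}
    (hs : s ∉ F) (hs2 : s ^ 2 ∈ F) :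
    ∃ σ : ℂ →+* ℂ, (∀ y ∈ F, σ y = y) ∧ σ s = -s := by
  have hint : IsIntegral F s := by
    refine IsIntegral.of_pow (n := 2) (by norm_num) ?_
    exact isIntegral_algebraMap (x := (⟨s ^ 2, hs2⟩ : F))
  have hmin : minpoly F s = Polynomial.X ^ 2 - Polynomial.C (⟨s ^ 2, hs2⟩ : F) := by
    have hmonic : (Polynomial.X ^ 2 - Polynomial.C (⟨s ^ 2, hs2⟩ : F)).Monic :=
      Polynomial.monic_X_pow_sub_C _ (by norm_num)
    have hdvd : minpoly F s ∣ Polynomial.X ^ 2 - Polynomial.C (⟨s ^ 2, hs2⟩ : F) := by
      apply minpoly.dvd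
      simp only [map_sub, map_pow, Polynomial.aeval_X, Polynomial.aeval_C]
      exact sub_self _
    refine (Polynomial.eq_of_monic_of_dvd_of_natDegree_le (minpoly.monic hint) hmonic hdvd ?_).symm
    rw [Polynomial.natDegree_X_pow_sub_C]
    by_contra hcon
    push Not at hcon
    have h1 : (minpoly F s).natDegree = 1 := by
      have := minpoly.natDegree_pos hint
      omega
    rw [minpoly.natDegree_eq_one_iff] at h1
    obtain ⟨y, hy⟩ := h1
    apply hs
    rw [← hy]
    exact y.2
  have hroot : Polynomial.aeval (-s) (minpoly F s) = 0 := by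
    rw [hmin]
    simp only [map_sub, map_pow, Polynomial.aeval_X, Polynomial.aeval_C, neg_sq]
    exact sub_self _
  have hne : minpoly F s ≠ 0 := minpoly.ne_zero hint
  let f : IntermediateField.adjoin F {s} →ₐ[F] ℂ :=
    (IntermediateField.algHomAdjoinIntegralEquiv F hint).symm
      ⟨-s, Polynomial.mem_aroots.mpr ⟨hne, hroot⟩⟩
  have hf : f (IntermediateField.AdjoinSimple.gen F s) = -s :=
    IntermediateField.algHomAdjoinIntegralEquiv_symm_apply_gen F hint _
  have h2 : Algebra.IsAlgebraic F (IntermediateField.adjoin F {s}) :=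
    IntermediateField.isAlgebraic_adjoin_simple hint
  have h3 : Algebra.IsAlgebraic ℚ (IntermediateField.adjoin F {s}) :=
    Algebra.IsAlgebraic.trans ℚ F _
  obtain ⟨σ, hσ⟩ := exists_extension (K := IntermediateField.adjoin F {s}) f.toRingHom
  refine ⟨σ, fun y hy => ?_, ?_⟩
  · have h4 := hσ (algebraMap F _ ⟨y, hy⟩)
    have h5 : f (algebraMap F _ ⟨y, hy⟩) = algebraMap F ℂ ⟨y, hy⟩ := f.commutes _
    change σ _ = f _ at h4
    rw [h5] at h4
    exact h4
  · have h4 := hσ (IntermediateField.AdjoinSimple.gen F s)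
    change σ _ = f _ at h4
    rw [hf, IntermediateField.AdjoinSimple.algebraMap_gen] at h4
    exact h4

/-- Square roots in multiquadratic fields. -/
theorem square_mem {α : Type*} [DecidableEq α] (D : α → ℚ) (s : α → ℂ) (hs : ∀ a, s a ^ 2 = D a)
    (hD : ∀ a, D a ≠ 0) (A : Finset α) :
    ∀ (e : ℚ) (x : ℂ), x ∈ IntermediateField.adjoin ℚ (s '' A) → x ^ 2 = e →
      ∃ B ⊆ A, IsSquare (e * ∏ b ∈ B, D b) := by
  induction A using Finset.induction_on with
  | empty =>
    intro e x hx hxe
    refine ⟨∅, le_rfl, ?_⟩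
    rw [Finset.coe_empty, Set.image_empty, IntermediateField.adjoin_empty,
      IntermediateField.mem_bot] at hx
    obtain ⟨q, rfl⟩ := hx
    rw [Finset.prod_empty, mul_one]
    refine ⟨q, ?_⟩
    have h1 : ((q * q : ℚ) : ℂ) = (e : ℂ) := by
      rw [← hxe]
      push_cast
      rw [sq]
      rfl
    exact_mod_cast h1.symm
  | insert a A ha ih =>
    intro e x hx hxe
    set F := IntermediateField.adjoin ℚ (s '' A) with hF
    by_cases hsa : s a ∈ F
    · have h1 : IntermediateField.adjoin ℚ (s '' (insert a A : Finset α)) ≤ F := by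
        rw [IntermediateField.adjoin_le_iff]
        rintro _ ⟨b, hb, rfl⟩
        rw [Finset.coe_insert] at hb
        rcases hb with rfl | hb
        · exact hsa
        · exact IntermediateField.subset_adjoin _ _ ⟨b, hb, rfl⟩
      obtain ⟨B, hB, hsq⟩ := ih e x (h1 hx) hxe
      exact ⟨B, hB.trans (Finset.subset_insert _ _), hsq⟩
    · -- elements of the bigger field
      have h2 : ∃ y ∈ F, ∃ z ∈ F, x = y + z * s a := by
        have halg : ∀ x ∈ s '' (insert a A : Finset α), IsAlgebraic ℚ x := by
          rintro _ ⟨b, -, rfl⟩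
          refine IsIntegral.isAlgebraic (IsIntegral.of_pow (n := 2) (by norm_num) ?_)
          rw [hs b]
          exact isIntegral_algebraMap (R := ℚ) (A := ℂ) (x := D b)
        have hx' : x ∈ Algebra.adjoin ℚ (s '' (insert a A : Finset α)) := by
          rw [← IntermediateField.adjoin_toSubalgebra_of_isAlgebraic halg]
          exact hx
        refine Algebra.adjoin_induction (p := fun x _ => ∃ y ∈ F, ∃ z ∈ F, x = y + z * s a)
          ?_ ?_ ?_ ?_ hx'
        · rintro _ ⟨b, hb, rfl⟩
          rw [Finset.coe_insert] at hb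
          rcases hb with rfl | hb
          · exact ⟨0, F.zero_mem, 1, F.one_mem, by ring⟩
          · exact ⟨s b, IntermediateField.subset_adjoin _ _ ⟨b, hb, rfl⟩, 0, F.zero_mem, by ring⟩
        · intro r
          exact ⟨algebraMap ℚ ℂ r, F.algebraMap_mem r, 0, F.zero_mem, by ring⟩
        · rintro _ _ _ _ ⟨y, hy, z, hz, rfl⟩ ⟨y', hy', z', hz', rfl⟩
          exact ⟨y + y', F.add_mem hy hy', z + z', F.add_mem hz hz', by ring⟩
        · rintro _ _ _ _ ⟨y, hy, z, hz, rfl⟩ ⟨y', hy', z', hz', rfl⟩
          refine ⟨y * y' + z * z' * D a, F.add_mem (F.mul_mem hy hy')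
            (F.mul_mem (F.mul_mem hz hz') (F.algebraMap_mem (D a))), y * z' + z * y',
            F.add_mem (F.mul_mem hy hz') (F.mul_mem hz hy'), ?_⟩
          linear_combination z * z' * hs a
      obtain ⟨y, hy, z, hz, rfl⟩ := h2
      have h3 : y * z = 0 := by
        by_contra hne
        apply hsa
        have h4 : s a = (e - y ^ 2 - z ^ 2 * D a) / (2 * (y * z)) := by
          rw [eq_div_iff (mul_ne_zero two_ne_zero hne)]
          linear_combination hxe - z ^ 2 * hs a
        rw [h4]
        have hrat : ∀ q : ℚ, (q : ℂ) ∈ F := fun q => F.algebraMap_mem q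
        exact F.div_mem (F.sub_mem (F.sub_mem (hrat e) (F.pow_mem hy 2))
          (F.mul_mem (F.pow_mem hz 2) (hrat (D a))))
          (F.mul_mem (by exact_mod_cast hrat 2) (F.mul_mem hy hz))
      rcases mul_eq_zero.mp h3 with rfl | rfl
      · -- `x = z * s a`
        have h5 : (z * D a) ^ 2 = ((e * D a : ℚ) : ℂ) := by
          push_cast
          linear_combination (D a : ℂ) * hxe - z ^ 2 * D a * hs a
        obtain ⟨B, hB, hsq⟩ := ih (e * D a) (z * D a)
          (F.mul_mem hz (F.algebraMap_mem (D a))) h5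
        refine ⟨insert a B, Finset.insert_subset_insert _ hB, ?_⟩
        rw [Finset.prod_insert (fun h => ha (hB h)), ← mul_assoc]
        exact hsq
      · rw [zero_mul, add_zero] at hxe
        obtain ⟨B, hB, hsq⟩ := ih e y hy hxe
        exact ⟨B, hB.trans (Finset.subset_insert _ _), hsq⟩

/-- Endomorphisms of `ℂ` with prescribed signs on independent square roots. -/
theorem exists_signs {α : Type*} (D : α → ℚ) (s : α → ℂ) (hs : ∀ a, s a ^ 2 = D a)
    (hind : ∀ T : Finset α, T.Nonempty → ¬ IsSquare (∏ a ∈ T, D a)) (ε : α → Prop)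
    (A : Finset α) :
    ∃ σ : ℂ →+* ℂ, ∀ a ∈ A, (ε a → σ (s a) = s a) ∧ (¬ ε a → σ (s a) = -s a) := by
  classical
  have hD : ∀ a, D a ≠ 0 := by
    intro a ha
    apply hind {a} (Finset.singleton_nonempty a)
    rw [Finset.prod_singleton, ha]
    exact ⟨0, by ring⟩
  induction A using Finset.induction_on with
  | empty => exact ⟨RingHom.id ℂ, fun a ha => by simp at ha⟩
  | insert a A ha ih =>
    obtain ⟨σ, hσ⟩ := ih
    set F := IntermediateField.adjoin ℚ (s '' A) with hF
    have hFalg : Algebra.IsAlgebraic ℚ F := by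
      refine IntermediateField.isAlgebraic_adjoin ?_
      rintro _ ⟨b, -, rfl⟩
      refine IsIntegral.of_pow (n := 2) (by norm_num) ?_
      rw [hs b]
      exact isIntegral_algebraMap (R := ℚ) (A := ℂ) (x := D b)
    have hsa : s a ∉ F := by
      intro hmem
      obtain ⟨B, hB, hsq⟩ := square_mem D s hs hD A (D a) (s a) hmem (hs a)
      apply hind (insert a B) (Finset.insert_nonempty _ _)
      rw [Finset.prod_insert (fun h => ha (hB h))]
      exact hsq
    have hsa2 : s a ^ 2 ∈ F := by
      rw [hs a]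
      exact F.algebraMap_mem (D a)
    obtain ⟨τ, hτ, hτa⟩ := exists_neg_sqrt F hsa hsa2
    have h1 : σ (s a) = s a ∨ σ (s a) = -s a := by
      have h2 : σ (s a) ^ 2 = s a ^ 2 := by
        rw [← map_pow, hs a, map_ratCast]
      exact sq_eq_sq_iff_eq_or_eq_neg.mp h2
    have h3 : ∀ b ∈ A, (σ.comp τ) (s b) = σ (s b) := by
      intro b hb
      rw [RingHom.comp_apply, hτ _ (IntermediateField.subset_adjoin _ _ ⟨b, hb, rfl⟩)]
    have h4 : (σ.comp τ) (s a) = -σ (s a) := by
      rw [RingHom.comp_apply, hτa, map_neg]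
    by_cases hε : ε a
    · rcases h1 with h1 | h1
      · refine ⟨σ, fun b hb => ?_⟩
        rcases Finset.mem_insert.mp hb with rfl | hb
        · exact ⟨fun _ => h1, fun h => (h hε).elim⟩
        · exact hσ b hb
      · refine ⟨σ.comp τ, fun b hb => ?_⟩
        rcases Finset.mem_insert.mp hb with rfl | hb
        · exact ⟨fun _ => by rw [h4, h1, neg_neg], fun h => (h hε).elim⟩
        · rw [h3 b hb]
          exact hσ b hb
    · rcases h1 with h1 | h1
      · refine ⟨σ.comp τ, fun b hb => ?_⟩
        rcases Finset.mem_insert.mp hb with rfl | hb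
        · exact ⟨fun h => (hε h).elim, fun _ => by rw [h4, h1]⟩
        · rw [h3 b hb]
          exact hσ b hb
      · refine ⟨σ, fun b hb => ?_⟩
        rcases Finset.mem_insert.mp hb with rfl | hb
        · exact ⟨fun h => (hε h).elim, fun _ => h1⟩
        · exact hσ b hb

end Pool.Agent.GHC
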